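import Pool.Agent.W680.WH.Stm

/-!
# Project WHH, part REC
-/

set_option autoImplicit false

open scoped ComplexConjugate InnerProductSpace
open ContinuousLinearMap Filter

namespace Pool.Agent.W675.WH

open Pool.Agent.W680.WH

section alg
variable {A : Type} [Ring A] [Algebra ℂ A]

lemma alg1 (Z Q : A) (r q1 : ℂ) (hQ : Q * Z = Z * Q - (2 : ℂ) • (Q * Q)) :
    (1 + r • Z - (2 * r) • Q) *
        ((1 - r ^ 2) • Q - q1 • ((1 + r • (Z - Q)) * (Z + r • (1 : A)))) =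
      ((1 - r ^ 2) • Q - q1 • ((1 + r • (Z - Q) - (2 * r) • Q) * (Z + r • (1 : A)))) *
        (1 + r • Z) := by
  have hQ' : ∀ x : A, Q * (Z * x) = Z * (Q * x) - (2 : ℂ) • (Q * (Q * x)) := by
    intro x
    rw [← mul_assoc, hQ, sub_mul, smul_mul_assoc, mul_assoc, mul_assoc]
  simp only [mul_add, add_mul, mul_sub, sub_mul, smul_mul_assoc, mul_smul_comm, one_mul, mul_one,
    mul_assoc, smul_add, smul_sub, hQ, hQ']
  module

lemma alg2 (Z Q : A) (r q q1 : ℂ) (hq : q1 * (1 + 2 * q) = q)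
    (hQ : Q * Z = Z * Q - (2 : ℂ) • (Q * Q)) :
    (1 + 2 * q) • (((1 - r ^ 2) • Q - q1 • ((1 + r • (Z - Q) - (2 * r) • Q) * (Z + r • (1 : A)))) *
        (Z + r • (1 : A))) =
      (Z + r • (1 : A) - (2 : ℂ) • Q) *
        ((1 - r ^ 2) • Q - q • ((1 + r • (Z - Q)) * (Z + r • (1 : A)))) := by
  have hQ' : ∀ x : A, Q * (Z * x) = Z * (Q * x) - (2 : ℂ) • (Q * (Q * x)) := by
    intro x
    rw [← mul_assoc, hQ, sub_mul, smul_mul_assoc, mul_assoc, mul_assoc]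
  have h1 : ∀ x : A, (1 + 2 * q) • (((1 - r ^ 2) • Q - q1 • x) * (Z + r • (1 : A))) =
      ((1 + 2 * q) * (1 - r ^ 2)) • (Q * (Z + r • (1 : A))) - q • (x * (Z + r • (1 : A))) := by
    intro x
    rw [sub_mul, smul_sub, smul_mul_assoc, smul_mul_assoc, smul_smul, smul_smul]
    congr 2
    linear_combination hq
  rw [h1]
  simp only [mul_add, add_mul, mul_sub, sub_mul, smul_mul_assoc, mul_smul_comm, one_mul, mul_one,
    mul_assoc, smul_add, smul_sub, hQ, hQ']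
  module

end alg

/-- the weights -/
noncomputable def bt (n : ℤ) : ℝ := (4 * (n : ℝ) + 1) / (4 * (n : ℝ) + 3)

lemma four_ne (n : ℤ) (k : ℤ) (hk : k % 4 ≠ 0) : (4 * (n : ℝ) + k) ≠ 0 := by
  intro h
  have : ((4 * n + k : ℤ) : ℝ) = 0 := by push_cast; exact h
  have h2 : 4 * n + k = 0 := by exact_mod_cast this
  omega

lemma n1 (n : ℤ) : (4 * (n : ℝ) + 1) ≠ 0 := by
  have := four_ne n 1 (by norm_num); simpa using this
lemma n3 (n : ℤ) : (4 * (n : ℝ) + 3) ≠ 0 := by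
  have := four_ne n 3 (by norm_num); simpa using this
lemma c1 (n : ℤ) : (4 * (n : ℂ) + 1) ≠ 0 := by
  have := n1 n
  intro h
  apply this
  have : (((4 * (n : ℝ) + 1 : ℝ)) : ℂ) = 0 := by push_cast; exact h
  exact_mod_cast this
lemma c3 (n : ℤ) : (4 * (n : ℂ) + 3) ≠ 0 := by
  have := n3 n
  intro h
  apply this
  have : (((4 * (n : ℝ) + 3 : ℝ)) : ℂ) = 0 := by push_cast; exact h
  exact_mod_cast this

lemma bt_ne (n : ℤ) : bt n ≠ 0 := div_ne_zero (n1 n) (n3 n)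

lemma bt_inj {n m : ℤ} (h : bt n = bt m) : n = m := by
  unfold bt at h
  rw [div_eq_div_iff (n3 n) (n3 m)] at h
  have : (n : ℝ) = m := by linarith
  exact_mod_cast this

lemma bt_neg (n : ℤ) : bt (-n - 1) = (bt n)⁻¹ := by
  unfold bt
  rw [inv_div]
  have h1 := n1 n
  have h3 := n3 n
  have e1 : (4 * (((-n - 1 : ℤ)) : ℝ) + 1) = -(4 * (n : ℝ) + 3) := by push_cast; ring
  have e2 : (4 * (((-n - 1 : ℤ)) : ℝ) + 3) = -(4 * (n : ℝ) + 1) := by push_cast; ring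
  rw [e1, e2, neg_div_neg_eq]

lemma bt_om (n : ℤ) : bt n * om (n + 1) = om n := by
  rw [om_succ]
  unfold bt
  have h1 := n1 n
  have h3 := n3 n
  field_simp

lemma co_sub (f g : E) (n : ℤ) : co (f - g) n = co f n - co g n := by
  simp [co, sub_div]

lemma co_zero (n : ℤ) : co (0 : E) n = 0 := by
  simp [co]

/-- injectivity -/
lemma inj (h1 : S_OM) (h2 : S_OPC) (r : ℝ) (hr : 0 ≤ r) (hr1 : r < 1) (e : E)
    (he : (1 + (r : ℂ) • Z - (2 * (r : ℂ)) • Q) e = 0) : e = 0 := by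
  obtain ⟨hom1, -⟩ := h1
  obtain ⟨-, hZ, -, hZ2, hadd, hsmul, -, hsum, hext, -⟩ := h2
  set K : ℝ := ∑' n, om n * ‖co e n‖ ^ 2 with hK
  have hterm : ∀ n, 0 ≤ om n * ‖co e n‖ ^ 2 := fun n => by
    have := om_pos n; positivity
  have hle : ∀ n, ‖co e n‖ ^ 2 ≤ K := by
    intro n
    have h3 : om n * ‖co e n‖ ^ 2 ≤ K := (hsum e).le_tsum n (fun m _ => hterm m)
    have h4 : ‖co e n‖ ^ 2 ≤ om n * ‖co e n‖ ^ 2 := by
      have := hom1 n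
      nlinarith [sq_nonneg ‖co e n‖]
    linarith
  have hK0 : 0 ≤ K := tsum_nonneg hterm
  have hle' : ∀ n, ‖co e n‖ ≤ Real.sqrt K := fun n => Real.le_sqrt_of_sq_le (hle n)
  have hrec : ∀ n : ℤ, (4 * (n : ℂ) + 3) * co e (n + 1) = -(r : ℂ) * ((4 * (n : ℂ) - 1) * co e n) := by
    intro n
    have h5 : co ((1 + (r : ℂ) • Z - (2 * (r : ℂ)) • Q) e) (n + 1) = 0 := by rw [he, co_zero]
    have h6 : (1 + (r : ℂ) • Z - (2 * (r : ℂ)) • Q) e =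
        (e + (r : ℂ) • Z e) - (2 * (r : ℂ)) • (Z e - Z2 e) := rfl
    rw [h6, co_sub, hadd, hsmul, hsmul, co_sub, hZ, hZ2] at h5
    have h7 : ((n + 1 : ℤ)) - 1 = n := by ring
    rw [h7] at h5
    have h8 : (4 * (((n + 1 : ℤ)) : ℂ) - 1) = 4 * (n : ℂ) + 3 := by push_cast; ring
    have h9 : (4 * (((n + 1 : ℤ)) : ℂ) - 3) = 4 * (n : ℂ) + 1 := by push_cast; ring
    rw [h8, h9] at h5
    have h10 := c3 n
    field_simp at h5
    linear_combination h5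
  have hE : ∀ (m : ℕ) (n : ℤ), (4 * (n : ℂ) - 1) * co e n =
      (-(r : ℂ)) ^ m * ((4 * ((n - m : ℤ) : ℂ) - 1) * co e (n - m)) := by
    intro m
    induction m with
    | zero => intro n; simp
    | succ m ih =>
      intro n
      rw [ih n]
      have h11 := hrec (n - (m + 1 : ℕ))
      have h12 : n - ((m + 1 : ℕ) : ℤ) + 1 = n - m := by push_cast; ring
      rw [h12] at h11
      have h13 : (4 * ((n - m : ℤ) : ℂ) - 1) = 4 * ((n - ((m + 1 : ℕ) : ℤ) : ℤ) : ℂ) + 3 := by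
        push_cast; ring
      rw [h13, h11, pow_succ]
      ring
  apply hext
  intro n
  rw [co_zero]
  have hlim : Tendsto (fun m : ℕ => r ^ m * ((4 * ((n.natAbs : ℝ) + m) + 1) * Real.sqrt K)) atTop
      (nhds 0) := by
    have t1 : Tendsto (fun m : ℕ => (m : ℝ) * r ^ m) atTop (nhds 0) :=
      tendsto_self_mul_const_pow_of_lt_one hr hr1
    have t2 : Tendsto (fun m : ℕ => r ^ m) atTop (nhds 0) :=
      tendsto_pow_atTop_nhds_zero_of_lt_one hr hr1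
    have t3 := (t1.const_mul (4 * Real.sqrt K)).add
      (t2.const_mul ((4 * (n.natAbs : ℝ) + 1) * Real.sqrt K))
    rw [mul_zero, mul_zero, add_zero] at t3
    refine t3.congr (fun m => ?_)
    ring
  have hbd : ∀ m : ℕ, ‖(4 * (n : ℂ) - 1) * co e n‖ ≤
      r ^ m * ((4 * ((n.natAbs : ℝ) + m) + 1) * Real.sqrt K) := by
    intro m
    rw [hE m n, norm_mul, norm_pow, norm_neg, Complex.norm_real, Real.norm_of_nonneg hr, norm_mul]
    refine mul_le_mul_of_nonneg_left ?_ (by positivity)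
    refine mul_le_mul ?_ (hle' _) (norm_nonneg _) (by positivity)
    calc ‖(4 * ((n - m : ℤ) : ℂ) - 1)‖ ≤ ‖(4 * ((n - m : ℤ) : ℂ))‖ + ‖(1 : ℂ)‖ := norm_sub_le _ _
      _ ≤ 4 * ((n.natAbs : ℝ) + m) + 1 := by
        rw [norm_mul, norm_one, Complex.norm_intCast]
        have : ‖(4 : ℂ)‖ = 4 := by norm_num
        rw [this]
        have h14 : |((n - m : ℤ) : ℝ)| ≤ (n.natAbs : ℝ) + m := by
          push_cast
          calc |(n : ℝ) - m| ≤ |(n : ℝ)| + |(m : ℝ)| := abs_sub _ _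
            _ = (n.natAbs : ℝ) + m := by
              rw [Nat.abs_cast, Nat.cast_natAbs, Int.cast_abs]
        linarith
  have h15 : ‖(4 * (n : ℂ) - 1) * co e n‖ ≤ 0 := ge_of_tendsto' hlim hbd
  have h16 : (4 * (n : ℂ) - 1) * co e n = 0 := norm_le_zero_iff.mp h15
  have h17 : (4 * (n : ℂ) - 1) ≠ 0 := by
    have := c3 (n - 1)
    intro h
    apply this
    push_cast
    linear_combination h
  exact (mul_eq_zero.mp h16).resolve_left h17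

/-- the reality symmetry of a Moebius transform -/
lemma jj_sym (h4 : S_OPJ) (r : ℝ) (W Wi : E →L[ℂ] E) (hW : W * Wi = 1)
    (hjW : ∀ f, jj (W f) = Wi (jj f)) (x y : E)
    (hxy : y + (r : ℂ) • W y = W x + (r : ℂ) • x) :
    W (jj y) + (r : ℂ) • jj y = jj x + (r : ℂ) • W (jj x) := by
  obtain ⟨-, -, -, -, -, -, hadd, hsmul, -⟩ := h4
  have hW' : ∀ f, W (Wi f) = f := fun f => by
    have := congrArg (fun T : E →L[ℂ] E => T f) hW
    simpa using this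
  have h6 := congrArg jj hxy
  rw [hadd, hadd, hsmul, hsmul, hjW, hjW, Complex.conj_ofReal] at h6
  have h7 := congrArg W h6
  rw [map_add, map_add, map_smul, map_smul, hW', hW'] at h7
  exact h7

lemma inner_sym (h2 : S_OPA) (r : ℝ) (u v : E) :
    ⟪Z u + (r : ℂ) • u, Z2 v + (r : ℂ) • v⟫_ℂ = ⟪u + (r : ℂ) • Z u, v + (r : ℂ) • Z2 v⟫_ℂ := by
  obtain ⟨⟨-, -, -, hs⟩, ⟨had, -⟩, -⟩ := h2
  have h6 : ⟪Z u, Z2 v⟫_ℂ = ⟪u, v⟫_ℂ := by
    rw [← ContinuousLinearMap.adjoint_inner_right, had]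
    have := congrArg (fun T : E →L[ℂ] E => T v) hs
    have h8 : Zs (Z2 v) = v := this
    rw [h8]
  simp only [inner_add_left, inner_add_right, inner_smul_left, inner_smul_right,
    Complex.conj_ofReal, h6]
  ring

lemma cs_comm (W : E →L[ℂ] E) (r : ℂ) :
    (1 + r • W) * (W + r • (1 : E →L[ℂ] E)) = (W + r • (1 : E →L[ℂ] E)) * (1 + r • W) := by
  simp only [mul_add, add_mul, smul_mul_assoc, mul_smul_comm, one_mul, mul_one]
  module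

/-- the Moebius transform of an operator as a unit -/
lemma mk_unit (W : E →L[ℂ] E) (r : ℂ) (hc : IsUnit (1 + r • W))
    (hs : IsUnit (W + r • (1 : E →L[ℂ] E))) :
    ∃ A : (E →L[ℂ] E)ˣ, (∀ x, (A : E →L[ℂ] E) (x + r • W x) = W x + r • x) ∧
      (∀ x, (A : E →L[ℂ] E) x + r • W ((A : E →L[ℂ] E) x) = W x + r • x) ∧
      (∀ x y : E, x + r • W x = y + r • W y → x = y) ∧
      (∀ x : E, ∃ u, u + r • W u = x) := by
  obtain ⟨uc, huc⟩ := hc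
  obtain ⟨us, hus⟩ := hs
  have e1 : ∀ x, (uc : E →L[ℂ] E) x = x + r • W x := fun x => by rw [huc]; rfl
  have e2 : ∀ x, (us : E →L[ℂ] E) x = W x + r • x := fun x => by rw [hus]; rfl
  have hcomm : uc * us = us * uc := by
    apply Units.ext
    rw [Units.val_mul, Units.val_mul, huc, hus]
    exact cs_comm W r
  refine ⟨us * uc⁻¹, fun x => ?_, fun x => ?_, fun x y hxy => ?_, fun x => ?_⟩
  · rw [← e1, ← e2]
    have : (us * uc⁻¹) * uc = us := inv_mul_cancel_right us uc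
    exact congrArg (fun T : (E →L[ℂ] E)ˣ => (T : E →L[ℂ] E) x) this
  · rw [← e1, ← e2]
    have : uc * (us * uc⁻¹) = us := by
      rw [← mul_assoc, hcomm, mul_assoc, mul_inv_cancel, mul_one]
    exact congrArg (fun T : (E →L[ℂ] E)ˣ => (T : E →L[ℂ] E) x) this
  · rw [← e1, ← e1] at hxy
    have h4 : ∀ z : E, ((uc⁻¹ : (E →L[ℂ] E)ˣ) : E →L[ℂ] E) ((uc : E →L[ℂ] E) z) = z := by
      intro z
      exact congrArg (fun T : (E →L[ℂ] E)ˣ => (T : E →L[ℂ] E) z) (inv_mul_cancel uc)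
    rw [← h4 x, hxy, h4]
  · refine ⟨((uc⁻¹ : (E →L[ℂ] E)ˣ) : E →L[ℂ] E) x, ?_⟩
    rw [← e1]
    exact congrArg (fun T : (E →L[ℂ] E)ˣ => (T : E →L[ℂ] E) x) (mul_inv_cancel uc)

lemma q_rel (n : ℕ) : (2 / (4 * (((n + 1 : ℕ)) : ℂ) + 3)) * (1 + 2 * (2 / (4 * (n : ℂ) + 3))) =
    2 / (4 * (n : ℂ) + 3) := by
  have h1 : (4 * (n : ℂ) + 3) ≠ 0 := by
    have := c3 n; simpa using this
  have h2 : (4 * (((n + 1 : ℕ)) : ℂ) + 3) ≠ 0 := by
    have := c3 ((n + 1 : ℕ) : ℤ); simpa using this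
  field_simp
  push_cast
  ring

/-- the induction step -/
lemma step (h1 : S_OM) (h2 : S_OPA) (h3 : S_OPC) (r : ℝ) (hr : 0 ≤ r) (hr1 : r < 1) (q q1 : ℂ)
    (hq : q1 * (1 + 2 * q) = q) (hq0 : 1 + 2 * q ≠ 0) (x y : E)
    (hxy : y + (r : ℂ) • Z y = Z x + (r : ℂ) • x)
    (hx : (1 - (r : ℂ) ^ 2) • Q x = q • (((1 : E →L[ℂ] E) + (r : ℂ) • Z2)
      ((Z + (r : ℂ) • (1 : E →L[ℂ] E)) x))) :
    (1 - (r : ℂ) ^ 2) • Q y = q1 • (((1 : E →L[ℂ] E) + (r : ℂ) • Z2)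
      ((Z + (r : ℂ) • (1 : E →L[ℂ] E)) y)) := by
  have hcomm : Z2 * Z - Z * Z2 = (2 : ℂ) • (Q * Q) := h2.2.2.2
  have hZ2 : Z2 = Z - Q := by unfold Q; abel
  have hQ : Q * Z = Z * Q - (2 : ℂ) • (Q * Q) := by
    rw [← hcomm, hZ2]
    simp only [mul_sub, sub_mul]
    abel
  have a1 := alg1 Z Q (r : ℂ) q1 hQ
  have a2 := alg2 Z Q (r : ℂ) q q1 hq hQ
  rw [← hZ2] at a1 a2
  set D0 : E →L[ℂ] E := (1 - (r : ℂ) ^ 2) • Q - q • ((1 + (r : ℂ) • Z2) * (Z + (r : ℂ) • (1 : E →L[ℂ] E)))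
    with hD0
  set D1 : E →L[ℂ] E := (1 - (r : ℂ) ^ 2) • Q - q1 • ((1 + (r : ℂ) • Z2) * (Z + (r : ℂ) • (1 : E →L[ℂ] E)))
    with hD1
  set F : E →L[ℂ] E := (1 - (r : ℂ) ^ 2) • Q -
    q1 • ((1 + (r : ℂ) • Z2 - (2 * (r : ℂ)) • Q) * (Z + (r : ℂ) • (1 : E →L[ℂ] E))) with hF
  have b0 : D0 x = 0 := by
    have : D0 x = (1 - (r : ℂ) ^ 2) • Q x - q • (((1 : E →L[ℂ] E) + (r : ℂ) • Z2)
      ((Z + (r : ℂ) • (1 : E →L[ℂ] E)) x)) := rfl
    rw [this, hx, sub_self]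
  have b2 : (1 + 2 * q) • F ((Z + (r : ℂ) • (1 : E →L[ℂ] E)) x) = 0 := by
    have := congrArg (fun T : E →L[ℂ] E => T x) a2
    have e1 : ((1 + 2 * q) • (F * (Z + (r : ℂ) • (1 : E →L[ℂ] E)))) x =
      (1 + 2 * q) • F ((Z + (r : ℂ) • (1 : E →L[ℂ] E)) x) := rfl
    have e2 : ((Z + (r : ℂ) • (1 : E →L[ℂ] E) - (2 : ℂ) • Q) * D0) x =
      (Z + (r : ℂ) • (1 : E →L[ℂ] E) - (2 : ℂ) • Q) (D0 x) := rfl
    simp only [e1, e2, b0, map_zero] at this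
    exact this
  have b3 : F ((Z + (r : ℂ) • (1 : E →L[ℂ] E)) x) = 0 := (smul_eq_zero.mp b2).resolve_left hq0
  have b4 : (1 + (r : ℂ) • Z - (2 * (r : ℂ)) • Q) (D1 y) = 0 := by
    have := congrArg (fun T : E →L[ℂ] E => T y) a1
    have e1 : ((1 + (r : ℂ) • Z - (2 * (r : ℂ)) • Q) * D1) y =
      (1 + (r : ℂ) • Z - (2 * (r : ℂ)) • Q) (D1 y) := rfl
    have e2 : (F * (1 + (r : ℂ) • Z)) y = F (y + (r : ℂ) • Z y) := rfl
    simp only [e1, e2] at this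
    rw [this, hxy]
    exact b3
  have b5 : D1 y = 0 := inj h1 h3 r hr hr1 _ b4
  have b6 : D1 y = (1 - (r : ℂ) ^ 2) • Q y - q1 • (((1 : E →L[ℂ] E) + (r : ℂ) • Z2)
      ((Z + (r : ℂ) • (1 : E →L[ℂ] E)) y)) := rfl
  rw [b6] at b5
  exact sub_eq_zero.mp b5

/-- the main part: from a family of vectors to the operator -/
lemma mkV (g : ℤ → E) (hg0 : g 0 ≠ 0)
    (horth : ∀ n m : ℤ, n ≠ m → ⟪g n, g m⟫_ℂ = 0) (hnorm : ∀ n : ℤ, ‖g n‖ ^ 2 = om n * ‖g 0‖ ^ 2) :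
    ∃ V : E →L[ℂ] E, (∀ n, V (eb n) = g n) ∧ ∀ f, ‖V f‖ = ‖g 0‖ * ‖f‖ := by
  have hpos : 0 < ‖g 0‖ := norm_pos_iff.mpr hg0
  have hn : ∀ n : ℤ, ‖g n‖ = Real.sqrt (om n) * ‖g 0‖ := by
    intro n
    have h1 : 0 ≤ Real.sqrt (om n) * ‖g 0‖ := by positivity
    rw [← abs_of_nonneg (norm_nonneg (g n)), ← abs_of_nonneg h1, ← sq_eq_sq_iff_abs_eq_abs, hnorm,
      mul_pow, Real.sq_sqrt (om_pos n).le]
  have hs : ∀ n : ℤ, 0 < Real.sqrt (om n) := fun n => Real.sqrt_pos.mpr (om_pos n)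
  let u : ℤ → E := fun n => (((Real.sqrt (om n) * ‖g 0‖)⁻¹ : ℝ) : ℂ) • g n
  have hu : Orthonormal ℂ u := by
    constructor
    · intro n
      have h2 := hs n
      change ‖(((Real.sqrt (om n) * ‖g 0‖)⁻¹ : ℝ) : ℂ) • g n‖ = 1
      rw [norm_smul, Complex.norm_real, Real.norm_of_nonneg (by positivity), hn n]
      field_simp
    · intro n m hnm
      change ⟪(((Real.sqrt (om n) * ‖g 0‖)⁻¹ : ℝ) : ℂ) • g n,
        (((Real.sqrt (om m) * ‖g 0‖)⁻¹ : ℝ) : ℂ) • g m⟫_ℂ = 0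
      rw [inner_smul_left, inner_smul_right, horth n m hnm, mul_zero, mul_zero]
  let V0 : E →ₗᵢ[ℂ] E := hu.orthogonalFamily.linearIsometry
  have hV0 : ∀ (n : ℤ) (x : ℂ), V0 (lp.single 2 n x) = x • u n := by
    intro n x
    have := hu.orthogonalFamily.linearIsometry_apply_single (i := n) x
    rw [LinearIsometry.toSpanSingleton_apply] at this
    exact this
  refine ⟨(‖g 0‖ : ℂ) • V0.toContinuousLinearMap, fun n => ?_, fun f => ?_⟩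
  · have e1 : ((‖g 0‖ : ℂ) • V0.toContinuousLinearMap) (eb n) = (‖g 0‖ : ℂ) • V0 (eb n) := rfl
    rw [e1]
    unfold eb
    rw [hV0]
    change (‖g 0‖ : ℂ) • ((Real.sqrt (om n) : ℝ) : ℂ) • (((Real.sqrt (om n) * ‖g 0‖)⁻¹ : ℝ) : ℂ) • g n = g n
    rw [smul_smul, smul_smul]
    have h2 := hs n
    have : (‖g 0‖ : ℂ) * (((Real.sqrt (om n) : ℝ) : ℂ) * (((Real.sqrt (om n) * ‖g 0‖)⁻¹ : ℝ) : ℂ)) = 1 := by
      have h5 : ‖g 0‖ * (Real.sqrt (om n) * (Real.sqrt (om n) * ‖g 0‖)⁻¹) = 1 := by field_simp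
      exact_mod_cast h5
    rw [mul_assoc, this, one_smul]
  · have e1 : ((‖g 0‖ : ℂ) • V0.toContinuousLinearMap) f = (‖g 0‖ : ℂ) • V0 f := rfl
    rw [e1, norm_smul, Complex.norm_real, Real.norm_of_nonneg hpos.le, V0.norm_map]

lemma two_thirds_ne (n : ℕ) : 1 + 2 * (2 / (4 * (n : ℂ) + 3)) ≠ 0 := by
  have h1 : (0 : ℝ) < 1 + 2 * (2 / (4 * (n : ℝ) + 3)) := by positivity
  intro h
  have h2 : (((1 + 2 * (2 / (4 * (n : ℝ) + 3)) : ℝ)) : ℂ) = 0 := by push_cast; exact h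
  have h3 : (1 + 2 * (2 / (4 * (n : ℝ) + 3)) : ℝ) = 0 := by exact_mod_cast h2
  linarith

lemma final (h2 : S_OPA) (h3 : S_OPC) (r : ℝ) (g : E) (hg0 : g ≠ 0) (A B : E →L[ℂ] E) (G : ℤ → E)
    (hinner : ∀ x y, ⟪A x, B y⟫_ℂ = ⟪x, y⟫_ℂ)
    (hG0 : G 0 = g) (hGs : ∀ n, G (n + 1) = A (G n))
    (hGB : ∀ n, B (G n) = ((bt n : ℝ) : ℂ) • G (n + 1))
    (hA2 : ∀ x, A x + (r : ℂ) • Z (A x) = Z x + (r : ℂ) • x)
    (hB2 : ∀ x, B x + (r : ℂ) • Z2 (B x) = Z2 x + (r : ℂ) • x) :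
    ∃ V : E →L[ℂ] E, V (eb 0) = g ∧
      (1 + (r : ℂ) • Z) * V * Z = (Z + (r : ℂ) • (1 : E →L[ℂ] E)) * V ∧
      (1 + (r : ℂ) • Z2) * V * Z2 = (Z2 + (r : ℂ) • (1 : E →L[ℂ] E)) * V ∧
      ∀ f, ‖V f‖ = ‖g‖ * ‖f‖ := by
  have hin1 : ∀ n m : ℤ, ((bt m : ℝ) : ℂ) * ⟪G (n + 1), G (m + 1)⟫_ℂ = ⟪G n, G m⟫_ℂ := by
    intro n m
    rw [← hinner (G n) (G m), hGB, ← hGs, inner_smul_right]
  have hin2 : ∀ n m : ℤ, ((bt n : ℝ) : ℂ) * ⟪G (n + 1), G (m + 1)⟫_ℂ = ⟪G n, G m⟫_ℂ := by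
    intro n m
    have := congrArg (starRingEnd ℂ) (hin1 m n)
    rw [map_mul, inner_conj_symm, inner_conj_symm, Complex.conj_ofReal] at this
    exact this
  have horth : ∀ n m : ℤ, n ≠ m → ⟪G n, G m⟫_ℂ = 0 := by
    intro n m hnm
    have e1 := hin1 (n - 1) (m - 1)
    have e2 := hin2 (n - 1) (m - 1)
    rw [sub_add_cancel, sub_add_cancel] at e1 e2
    have e3 : (((bt (m - 1) : ℝ) : ℂ) - ((bt (n - 1) : ℝ) : ℂ)) * ⟪G n, G m⟫_ℂ = 0 := by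
      rw [sub_mul, e1, e2, sub_self]
    refine (mul_eq_zero.mp e3).resolve_left (fun h0 => hnm ?_)
    rw [sub_eq_zero] at h0
    have h00 : bt (m - 1) = bt (n - 1) := by exact_mod_cast h0
    have := bt_inj h00
    omega
  have hnorm1 : ∀ n : ℤ, bt n * ‖G (n + 1)‖ ^ 2 = ‖G n‖ ^ 2 := by
    intro n
    have := hin1 n n
    rw [inner_self_eq_norm_sq_to_K, inner_self_eq_norm_sq_to_K] at this
    have e : ((bt n * ‖G (n + 1)‖ ^ 2 : ℝ) : ℂ) = ((‖G n‖ ^ 2 : ℝ) : ℂ) := by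
      push_cast
      exact this
    exact Complex.ofReal_injective e
  have hnorm : ∀ n : ℤ, ‖G n‖ ^ 2 = om n * ‖G 0‖ ^ 2 := by
    intro n
    have key : ∀ m : ℤ, (‖G m‖ ^ 2 = om m * ‖G 0‖ ^ 2) ↔
        (‖G (m + 1)‖ ^ 2 = om (m + 1) * ‖G 0‖ ^ 2) := by
      intro m
      rw [← hnorm1 m, ← bt_om m, mul_assoc]
      constructor
      · intro h0; exact mul_left_cancel₀ (bt_ne m) h0
      · intro h0; rw [h0]
    induction n using Int.induction_on with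
    | zero => rw [om_zero, one_mul]
    | succ i ih => exact (key i).mp ih
    | pred i ih =>
      have := key (-(i : ℤ) - 1)
      rw [sub_add_cancel] at this
      exact this.mpr ih
  obtain ⟨V, hV1, hV2⟩ := mkV G (by rw [hG0]; exact hg0) horth hnorm
  have hZeb : ∀ n : ℤ, Z (eb n) = eb (n + 1) := h2.2.2.1.1
  have hZ2eb : ∀ n : ℤ, Z2 (eb n) = ((4 * (n : ℂ) + 1) / (4 * (n : ℂ) + 3)) • eb (n + 1) :=
    h2.2.2.1.2.2.1
  have hext : ∀ S T : E →L[ℂ] E, (∀ n, S (eb n) = T (eb n)) → S = T :=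
    h3.2.2.2.2.2.2.2.2.2.2.2.2.2.1
  refine ⟨V, ?_, ?_, ?_, ?_⟩
  · rw [hV1, hG0]
  · apply hext
    intro n
    have e1 : ((1 + (r : ℂ) • Z) * V * Z) (eb n) = V (Z (eb n)) + (r : ℂ) • Z (V (Z (eb n))) := rfl
    have e2 : ((Z + (r : ℂ) • (1 : E →L[ℂ] E)) * V) (eb n) = Z (V (eb n)) + (r : ℂ) • V (eb n) := rfl
    rw [e1, e2, hZeb, hV1, hV1, hGs, hA2]
  · apply hext
    intro n
    have e1 : ((1 + (r : ℂ) • Z2) * V * Z2) (eb n) =
      V (Z2 (eb n)) + (r : ℂ) • Z2 (V (Z2 (eb n))) := rfl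
    have e2 : ((Z2 + (r : ℂ) • (1 : E →L[ℂ] E)) * V) (eb n) =
      Z2 (V (eb n)) + (r : ℂ) • V (eb n) := rfl
    have e3 : V (Z2 (eb n)) = B (G n) := by
      rw [hZ2eb, map_smul, hV1, hGB]
      congr 1
      unfold bt
      push_cast
      rfl
    rw [e1, e2, e3, hB2, hV1]
  · intro f
    rw [hV2, hG0]

theorem rec_main (h1 : S_OM) (h2 : S_OPA) (h3 : S_OPC) (h4 : S_OPJ) (h5 : S_INV) : S_REC := by
  intro r h hr hr1 hP hj
  by_cases hg0 : h + (r : ℂ) • Z h = 0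
  · refine ⟨0, ?_, ?_, ?_, fun f => ?_⟩
    · rw [hg0]; rfl
    · simp
    · simp
    · rw [hg0]; simp
  have hrn : ‖(-(r : ℂ))‖ < 1 := by
    rw [norm_neg, Complex.norm_real, Real.norm_of_nonneg hr]; exact hr1
  obtain ⟨i1, -, i3, -, i5, i6⟩ := h5 (-(r : ℂ)) hrn
  have j1 : IsUnit (1 + (r : ℂ) • Z) := by
    have : (1 + (r : ℂ) • Z : E →L[ℂ] E) = 1 - (-(r : ℂ)) • Z := by module
    rw [this]; exact i1
  have j3 : IsUnit (1 + (r : ℂ) • Z2) := by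
    have : (1 + (r : ℂ) • Z2 : E →L[ℂ] E) = 1 - (-(r : ℂ)) • Z2 := by module
    rw [this]; exact i3
  have j5 : IsUnit (Z + (r : ℂ) • (1 : E →L[ℂ] E)) := by
    have : (Z + (r : ℂ) • (1 : E →L[ℂ] E)) = Z - (-(r : ℂ)) • (1 : E →L[ℂ] E) := by module
    rw [this]; exact i5
  have j6 : IsUnit (Z2 + (r : ℂ) • (1 : E →L[ℂ] E)) := by
    have : (Z2 + (r : ℂ) • (1 : E →L[ℂ] E)) = Z2 - (-(r : ℂ)) • (1 : E →L[ℂ] E) := by module
    rw [this]; exact i6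
  obtain ⟨A, hA1, hA2, hA3, hA4⟩ := mk_unit Z (r : ℂ) j1 j5
  obtain ⟨B, hB1, hB2, hB3, hB4⟩ := mk_unit Z2 (r : ℂ) j3 j6
  set g : E := h + (r : ℂ) • Z h with hgdef
  -- zpow facts
  have zsucc : ∀ (n : ℤ) (x : E), ((A ^ (n + 1) : (E →L[ℂ] E)ˣ) : E →L[ℂ] E) x =
      (A : E →L[ℂ] E) (((A ^ n : (E →L[ℂ] E)ˣ) : E →L[ℂ] E) x) := by
    intro n x
    have : A ^ (n + 1) = A * A ^ n := by rw [add_comm, zpow_one_add]
    exact congrArg (fun T : (E →L[ℂ] E)ˣ => (T : E →L[ℂ] E) x) this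
  have zzero : ∀ x : E, ((A ^ (0 : ℤ) : (E →L[ℂ] E)ˣ) : E →L[ℂ] E) x = x := by
    intro x
    exact congrArg (fun T : (E →L[ℂ] E)ˣ => (T : E →L[ℂ] E) x) (zpow_zero A)
  have hZZi : Z * Zi = 1 := h2.1.1
  have hZ2Zs : Z2 * Zs = 1 := h2.1.2.2.1
  -- the symmetry
  have jA : ∀ x, (A : E →L[ℂ] E) (jj ((A : E →L[ℂ] E) x)) = jj x := by
    intro x
    apply hA3
    rw [hA2]
    exact jj_sym h4 r Z Zi hZZi h4.1 x _ (hA2 x)
  have jB : ∀ x, (B : E →L[ℂ] E) (jj ((B : E →L[ℂ] E) x)) = jj x := by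
    intro x
    apply hB3
    rw [hB2]
    exact jj_sym h4 r Z2 Zs hZ2Zs h4.2.1 x _ (hB2 x)
  have hinner : ∀ x y, ⟪(A : E →L[ℂ] E) x, (B : E →L[ℂ] E) y⟫_ℂ = ⟪x, y⟫_ℂ := by
    intro x y
    obtain ⟨u, rfl⟩ := hA4 x
    obtain ⟨v, rfl⟩ := hB4 y
    rw [hA1, hB1]
    exact inner_sym h2 r u v
  -- the recursion for natural exponents
  have hPn : ∀ n : ℕ, (1 - (r : ℂ) ^ 2) • Q (((A ^ (n : ℤ) : (E →L[ℂ] E)ˣ) : E →L[ℂ] E) h) =
      (2 / (4 * (n : ℂ) + 3)) • (((1 : E →L[ℂ] E) + (r : ℂ) • Z2)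
      ((Z + (r : ℂ) • (1 : E →L[ℂ] E)) (((A ^ (n : ℤ) : (E →L[ℂ] E)ˣ) : E →L[ℂ] E) h))) := by
    intro n
    induction n with
    | zero =>
      have e0 : ((A ^ ((0 : ℕ) : ℤ) : (E →L[ℂ] E)ˣ) : E →L[ℂ] E) h = h := zzero h
      rw [e0]
      have e1 : (2 / (4 * ((0 : ℕ) : ℂ) + 3)) = (2 / 3 : ℂ) := by norm_num
      have e2 : (1 - (r : ℂ) ^ 2) = ((1 - r ^ 2 : ℝ) : ℂ) := by push_cast; ring
      rw [e1, e2]
      exact hP
    | succ n ih =>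
      have e0 : ((A ^ ((n + 1 : ℕ) : ℤ) : (E →L[ℂ] E)ˣ) : E →L[ℂ] E) h =
          (A : E →L[ℂ] E) (((A ^ (n : ℤ) : (E →L[ℂ] E)ˣ) : E →L[ℂ] E) h) := by
        rw [← zsucc]; push_cast; rfl
      rw [e0]
      exact step h1 h2 h3 r hr hr1 _ _ (q_rel n) (two_thirds_ne n) _ _ (hA2 _) ih
  have hgn : ∀ n : ℤ, ((A ^ n : (E →L[ℂ] E)ˣ) : E →L[ℂ] E) h +
      (r : ℂ) • Z (((A ^ n : (E →L[ℂ] E)ˣ) : E →L[ℂ] E) h) =
      ((A ^ n : (E →L[ℂ] E)ˣ) : E →L[ℂ] E) g := by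
    have hcommZ : ∀ x : E, (A : E →L[ℂ] E) (Z x) = Z ((A : E →L[ℂ] E) x) := by
      intro x
      apply hA3
      rw [hA2]
      have := congrArg Z (hA2 x)
      rw [map_add, map_smul, map_add, map_smul] at this
      exact this.symm
    have hcZ : ∀ n : ℤ, ∀ x : E, ((A ^ n : (E →L[ℂ] E)ˣ) : E →L[ℂ] E) (Z x) =
        Z (((A ^ n : (E →L[ℂ] E)ˣ) : E →L[ℂ] E) x) := by
      intro n
      have hAZ : ∀ m : ℤ, (∀ x : E, ((A ^ m : (E →L[ℂ] E)ˣ) : E →L[ℂ] E) (Z x) =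
        Z (((A ^ m : (E →L[ℂ] E)ˣ) : E →L[ℂ] E) x)) ↔
          (∀ x : E, ((A ^ (m + 1) : (E →L[ℂ] E)ˣ) : E →L[ℂ] E) (Z x) =
        Z (((A ^ (m + 1) : (E →L[ℂ] E)ˣ) : E →L[ℂ] E) x)) := by
        intro m
        constructor
        · intro hm x
          rw [zsucc, zsucc, hm, hcommZ]
        · intro hm x
          have hx := hm x
          rw [zsucc, zsucc, ← hcommZ] at hx
          have hinj : ∀ a b : E, (A : E →L[ℂ] E) a = (A : E →L[ℂ] E) b → a = b := by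
            intro a b hab
            have h6 : ∀ z : E, ((A⁻¹ : (E →L[ℂ] E)ˣ) : E →L[ℂ] E) ((A : E →L[ℂ] E) z) = z :=
              fun z => congrArg (fun T : (E →L[ℂ] E)ˣ => (T : E →L[ℂ] E) z) (inv_mul_cancel A)
            rw [← h6 a, hab, h6]
          exact hinj _ _ hx
      induction n using Int.induction_on with
      | zero => intro x; rw [zzero, zzero]
      | succ i ih => exact (hAZ i).mp ih
      | pred i ih =>
        have := (hAZ (-(i : ℤ) - 1))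
        rw [sub_add_cancel] at this
        exact this.mpr ih
    intro n
    rw [hgdef, map_add, map_smul, hcZ]
  -- B acts as a weighted shift: natural indices
  have hB0 : ∀ n : ℕ, (B : E →L[ℂ] E) (((A ^ (n : ℤ) : (E →L[ℂ] E)ˣ) : E →L[ℂ] E) g) =
      ((bt n : ℝ) : ℂ) • ((A ^ ((n : ℤ) + 1) : (E →L[ℂ] E)ˣ) : E →L[ℂ] E) g := by
    intro n
    set x : E := ((A ^ (n : ℤ) : (E →L[ℂ] E)ˣ) : E →L[ℂ] E) h with hx
    rw [zsucc, ← hgn, ← hx, hA1]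
    apply hB3
    rw [hB2]
    have e1 := hPn n
    rw [← hx] at e1
    have e2 : ((1 : E →L[ℂ] E) + (r : ℂ) • Z2) ((Z + (r : ℂ) • (1 : E →L[ℂ] E)) x) =
        (Z x + (r : ℂ) • x) + (r : ℂ) • Z2 (Z x + (r : ℂ) • x) := rfl
    rw [e2] at e1
    have e3 : Q x = Z x - Z2 x := rfl
    have e4 : ((bt n : ℝ) : ℂ) = 1 - 2 / (4 * (n : ℂ) + 3) := by
      unfold bt
      have h6 := c3 (n : ℤ)
      push_cast
      have h7 : (4 * (n : ℂ) + 3) ≠ 0 := by simpa using h6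
      field_simp
      ring
    rw [e3] at e1
    rw [e4]
    simp only [map_add, map_smul, smul_add, smul_sub, smul_smul] at e1 ⊢
    linear_combination (norm := module) (-1 : ℂ) • e1
  -- all indices
  have hjg : jj g = g := hj
  have hjn : ∀ n : ℕ, jj (((A ^ (n : ℤ) : (E →L[ℂ] E)ˣ) : E →L[ℂ] E) g) =
      ((A ^ (-(n : ℤ)) : (E →L[ℂ] E)ˣ) : E →L[ℂ] E) g := by
    intro n
    induction n with
    | zero =>
      have e0 : ((A ^ ((0 : ℕ) : ℤ) : (E →L[ℂ] E)ˣ) : E →L[ℂ] E) g = g := zzero g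
      have e1 : ((A ^ (-((0 : ℕ) : ℤ)) : (E →L[ℂ] E)ˣ) : E →L[ℂ] E) g = g := zzero g
      rw [e0, e1, hjg]
    | succ n ih =>
      have e0 : ((A ^ ((n + 1 : ℕ) : ℤ) : (E →L[ℂ] E)ˣ) : E →L[ℂ] E) g =
          (A : E →L[ℂ] E) (((A ^ (n : ℤ) : (E →L[ℂ] E)ˣ) : E →L[ℂ] E) g) := by
        rw [← zsucc]; push_cast; rfl
      have e2 : (A : E →L[ℂ] E) (((A ^ (-((n + 1 : ℕ) : ℤ)) : (E →L[ℂ] E)ˣ) : E →L[ℂ] E) g) =
          ((A ^ (-(n : ℤ)) : (E →L[ℂ] E)ˣ) : E →L[ℂ] E) g := by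
        rw [← zsucc]
        have : -((n + 1 : ℕ) : ℤ) + 1 = -(n : ℤ) := by push_cast; ring
        rw [this]
      have hinj : ∀ a b : E, (A : E →L[ℂ] E) a = (A : E →L[ℂ] E) b → a = b := by
        intro a b hab
        have h6 : ∀ z : E, ((A⁻¹ : (E →L[ℂ] E)ˣ) : E →L[ℂ] E) ((A : E →L[ℂ] E) z) = z :=
          fun z => congrArg (fun T : (E →L[ℂ] E)ˣ => (T : E →L[ℂ] E) z) (inv_mul_cancel A)
        rw [← h6 a, hab, h6]
      apply hinj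
      rw [e0, jA, e2, ih]
  have hBall : ∀ n : ℤ, (B : E →L[ℂ] E) (((A ^ n : (E →L[ℂ] E)ˣ) : E →L[ℂ] E) g) =
      ((bt n : ℝ) : ℂ) • ((A ^ (n + 1) : (E →L[ℂ] E)ˣ) : E →L[ℂ] E) g := by
    intro n
    rcases le_or_gt 0 n with hn | hn
    · obtain ⟨m, rfl⟩ := Int.eq_ofNat_of_zero_le hn
      exact hB0 m
    · obtain ⟨m, hm⟩ := Int.eq_ofNat_of_zero_le (show 0 ≤ -n - 1 by omega)
      have hn' : n = -(m : ℤ) - 1 := by omega
      have e1 := congrArg jj (hB0 m)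
      have e2 : jj (((bt m : ℝ) : ℂ) • ((A ^ ((m : ℤ) + 1) : (E →L[ℂ] E)ˣ) : E →L[ℂ] E) g) =
          ((bt m : ℝ) : ℂ) • ((A ^ n : (E →L[ℂ] E)ˣ) : E →L[ℂ] E) g := by
        have hsm : ∀ (c : ℂ) f, jj (c • f) = conj c • jj f := h4.2.2.2.2.2.2.2.1
        rw [hsm, Complex.conj_ofReal]
        have e3 := hjn (m + 1)
        have e4 : (((m + 1 : ℕ)) : ℤ) = (m : ℤ) + 1 := by push_cast; ring
        rw [e4] at e3
        rw [e3, hn']
        congr 4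
        ring
      rw [e2] at e1
      have e5 := congrArg (fun x => (B : E →L[ℂ] E) x) e1
      rw [jB, hjn, map_smul] at e5
      have e6 : n + 1 = -(m : ℤ) := by omega
      rw [e6, e5, smul_smul, hn', bt_neg]
      have e7 : (((bt m)⁻¹ : ℝ) : ℂ) * ((bt m : ℝ) : ℂ) = 1 := by
        have : (bt m)⁻¹ * bt m = 1 := inv_mul_cancel₀ (bt_ne m)
        exact_mod_cast this
      rw [e7, one_smul]
  exact final h2 h3 r g hg0 (A : E →L[ℂ] E) (B : E →L[ℂ] E)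
    (fun n => ((A ^ n : (E →L[ℂ] E)ˣ) : E →L[ℂ] E) g) hinner (zzero g) (fun n => zsucc n g) hBall
    hA2 hB2

end Pool.Agent.W675.WH

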